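import Pool.Agent.Q167.Star.Thresholds

/-!
# MP_64b4f3_co, Q1: the upper threshold bias of the Avoider-Enforcer `k`-star game

For every fixed `k ≥ 3` the upper threshold bias of the strict `(1:b)` Avoider-Enforcer `k`-star game
on `K_n` satisfies `f⁺ = Θ(n ^ (k / (k - 1)))` for all sufficiently large `n`.
-/

set_option autoImplicit false

namespace Pool.Agent.Results.MP_64b4f3_co.UpperThreshold

open Q167.Star

theorem result : ∀ k : ℕ, 3 ≤ k → ∃ c C : ℝ, 0 < c ∧ 0 < C ∧ ∃ n₀ : ℕ, ∀ n : ℕ, n₀ ≤ n →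
    c * (n : ℝ) ^ ((k : ℝ) / ((k : ℝ) - 1)) ≤ fPlus k n ∧
      (fPlus k n : ℝ) ≤ C * (n : ℝ) ^ ((k : ℝ) / ((k : ℝ) - 1)) :=
  fun _ hk => fPlus_theta hk

end Pool.Agent.Results.MP_64b4f3_co.UpperThreshold
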